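import Pool.Agent.L0h32.UZ.Stm
import Pool.Agent.L0h95.UX.UNA

/-! # Project UZ, module SNV: the answers are right -/

set_option autoImplicit false
set_option linter.all false

namespace Pool.Agent.L0h55.UZ

open Pool.Agent.L0h32.UX Pool.Agent.L0h32.UZ Relation
open Pool.Agent.H630R2.LA (LimAut Sym Cfg Step init initTape WS lrel bitS ix nr Ann keep rewrite_keep)
open Pool.Agent.L0h95.UXU (wok0 ann_new)

section defs

variable {A : Type} {h : ℕ} {rel : A → Fin (2 ^ h) → Fin (2 ^ h) → Bool} {p0 : Fin (2 ^ h)}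
  {facc : Fin (2 ^ h) → Bool} {K : ℕ} {W : ℕ → ℕ → Fin (2 ^ h) → Fin (2 ^ h) → ℕ}

/-- there are no new moves in the states `wr` -/
theorem trv_wr {x : Wr} {σ : Sym (WS A)} {s' : St h} {b : WS A} {d : Bool}
    (ht : TrV h rel p0 facc K W (.wr x) σ s' b d) : Tr h rel p0 facc K W (.wr x) σ s' b d := by
  cases ht with
  | old _ _ _ _ _ ht => exact ht
  | rs _ _ _ _ hs _ => exact absurd hs (by simp [loc])
  | rs' _ _ _ _ hs _ => exact absurd hs (by simp [loc])

theorem init_sym [Finite A] {N : ℕ} {hQ : Finite {s : St h // Bd h N s}} {w : List A} {t : ℕ}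
    (ht : t < w.length) :
    initTape (vM h rel p0 facc K W N hQ) w (t + 1) = .sym (.raw w[t]) := by
  have h1 : w[t]? = some w[t] := List.getElem?_eq_getElem ht
  simp only [initTape, h1]
  rfl

theorem init_rm [Finite A] {N : ℕ} {hQ : Finite {s : St h // Bd h N s}} (w : List A) :
    initTape (vM h rel p0 facc K W N hQ) w (w.length + 1) = .rm := by
  simp only [initTape, List.getElem?_eq_none (le_refl w.length)]


end defs

section una

variable {A : Type} [Finite A] {h : ℕ} {rel : A → Fin (2 ^ h) → Fin (2 ^ h) → Bool}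
  {p0 : Fin (2 ^ h)} {facc : Fin (2 ^ h) → Bool} {K : ℕ}
  {W : ℕ → ℕ → Fin (2 ^ h) → Fin (2 ^ h) → ℕ} {N : ℕ} {hQ : Finite {s : St h // Bd h N s}}

/-- the cells `1..t` have been visited, the head is on the cell `t + 1` -/
def Ph1 (w : List A) (t : ℕ) (c : Cfg (vM h rel p0 facc K W N hQ)) : Prop :=
  ∃ x, c.state.1 = .wr x ∧ c.pos = t + 1 ∧ WOK h rel p0 w t x ∧ Ann h rel p0 w c.tape t ∧
    (∀ i, t < i → c.tape i = initTape (vM h rel p0 facc K W N hQ) w i) ∧
    (∀ i, 1 ≤ i → (i ∈ c.seen ↔ i ≤ t))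

/-- the cells `1..t + 1` have been visited -/
def Ph2 (w : List A) (t : ℕ) (c : Cfg (vM h rel p0 facc K W N hQ)) : Prop :=
  SOK h rel p0 facc K W w t c.state.1 c.pos ∧ Ann h rel p0 w c.tape (min (t + 1) w.length) ∧
    (∀ i, min (t + 1) w.length < i → c.tape i = initTape (vM h rel p0 facc K W N hQ) w i) ∧
    (∀ i, 1 ≤ i → (i ∈ c.seen ↔ i ≤ t + 1))

/-- what is known of a configuration -/
def Inv (w : List A) (c : Cfg (vM h rel p0 facc K W N hQ)) : Prop :=
  ∃ t ≤ w.length, Ph1 w t c ∨ Ph2 w t c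

theorem inv_init (w : List A) : Inv w (init (vM h rel p0 facc K W N hQ) w) := by
  refine ⟨0, Nat.zero_le _, Or.inl ⟨w0 h p0, rfl, rfl, wok0 w, ⟨rfl, ?_⟩, fun _ _ => rfl, ?_⟩⟩
  · intro i hi
    exact absurd hi (Nat.not_lt_zero _)
  · intro i hi
    constructor
    · intro hc
      exact absurd hc (Set.notMem_empty i)
    · intro hc
      omega

theorem step1 (hV : S_MV0) (hK : 0 < K) {strict : Prop} {w : List A} {t : ℕ} (ht : t ≤ w.length)
    {c c' : Cfg (vM h rel p0 facc K W N hQ)}
    (hc : Ph1 w t c) (hs : Step strict w.length c c') : Ph2 w t c' := by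
  obtain ⟨hpos, q, b, d, hδ, -, hst, ht1, ht2, hseen, hr, hl⟩ := hs
  have hTr : TrV h rel p0 facc K W c.state.1 (c.tape c.pos) q.1 b d := hδ
  obtain ⟨x, e1, e2, hW, hA, hτ, hS⟩ := hc
  have hnot : c.pos ∉ c.seen := by
    rw [e2]
    intro hc
    have := (hS (t + 1) (by omega)).1 hc
    omega
  have htape := ht2 hnot
  have hseen' : ∀ i, 1 ≤ i → (i ∈ c'.seen ↔ i ≤ t + 1) := by
    intro i hi
    rw [hseen, Set.mem_insert_iff, hS i hi, e2]
    omega
  rw [e1] at hTr
  replace hTr := trv_wr hTr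
  rcases Nat.lt_or_ge t w.length with hlt | hge
  · have hcell : c.tape c.pos = .sym (.raw w[t]) := by
      rw [e2, hτ (t + 1) (by omega), init_sym hlt]
    rw [hcell] at hTr
    have hq : q.1 = .hm (mem0 h p0 facc x false 0) ∧ b = .mark w[t] x.b ∧ d = false := by
      generalize q.1 = s' at hTr
      cases hTr
      exact ⟨rfl, rfl, rfl⟩
    obtain ⟨q1, q2, q3⟩ := hq
    have hpos' : c'.pos = t := by
      have := hl q3
      omega
    have hmin : min (t + 1) w.length = t + 1 := by omega
    have htape' : c'.tape = Function.update c.tape (t + 1) (.sym (.mark w[t] x.b)) := by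
      rw [htape, hcell, q2, e2]
      rfl
    refine ⟨?_, ?_, ?_, hseen'⟩
    · rw [hst, q1, hpos']
      exact ⟨hV A h rel p0 facc K W w t 0 x false hK hW (fun _ => hlt)
        (fun hf => absurd hf (by simp)), rfl⟩
    · rw [hmin, htape']
      exact ann_new hA hW hlt
    · intro i hi
      rw [hmin] at hi
      rw [htape', Function.update_of_ne (by omega)]
      exact hτ i (by omega)
  · have hteq : t = w.length := by omega
    subst hteq
    have hcell : c.tape c.pos = .rm := by
      rw [e2, hτ (w.length + 1) (by omega), init_rm]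
    rw [hcell] at hTr
    have hq : q.1 = .hm (mem0 h p0 facc x true 0) ∧ b = .dum ∧ d = false := by
      generalize q.1 = s' at hTr
      cases hTr
      exact ⟨rfl, rfl, rfl⟩
    obtain ⟨q1, q2, q3⟩ := hq
    have hpos' : c'.pos = w.length := by
      have := hl q3
      omega
    have hmin : min (w.length + 1) w.length = w.length := by omega
    have htape' : c'.tape = c.tape := by
      rw [htape, hcell]
      funext i
      by_cases hi : i = c.pos
      · subst hi
        rw [Function.update_self, hcell]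
        rfl
      · rw [Function.update_of_ne hi]
    refine ⟨?_, ?_, ?_, hseen'⟩
    · rw [hst, q1, hpos']
      exact ⟨hV A h rel p0 facc K W w w.length 0 x true hK hW
        (fun hf => absurd hf (by simp)) (fun _ => rfl), rfl⟩
    · rw [hmin, htape']
      exact hA
    · intro i hi
      rw [hmin] at hi
      rw [htape']
      exact hτ i hi

theorem step2 (hM : S_MVV) (hK : 0 < K) {strict : Prop} {w : List A} {t : ℕ} (ht : t ≤ w.length)
    {c c' : Cfg (vM h rel p0 facc K W N hQ)}
    (hc : Ph2 w t c) (hs : Step strict w.length c c') :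
    (t < w.length ∧ Ph1 w (t + 1) c' ∧ ∃ x, c.state.1 = .ex x) ∨ Ph2 w t c' := by
  obtain ⟨hpos, q, b, d, hδ, -, hst, ht1, ht2, hseen, hr, hl⟩ := hs
  have hTr : TrV h rel p0 facc K W c.state.1 (c.tape c.pos) q.1 b d := hδ
  obtain ⟨hSOK, hA, hτ, hS⟩ := hc
  obtain ⟨hb, hx1, hcase⟩ := hM A h rel p0 facc K W w t c.tape hK ht hA c.state.1 q.1 c.pos c'.pos b d
    hSOK hTr hr hl
  have htape' : c'.tape = c.tape := by
    by_cases hin : c.pos ∈ c.seen
    · exact ht1 hin
    · have hrk : (c.tape c.pos).rewrite (keep (c.tape c.pos)) = c.tape c.pos :=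
        rewrite_keep (c.tape c.pos)
      rw [ht2 hin, hb]
      funext i
      by_cases hi : i = c.pos
      · subst hi
        rw [Function.update_self]
        exact hrk
      · rw [Function.update_of_ne hi]
  rcases hcase with ⟨x, e0, e1, e2, e3, hW, hlt⟩ | hSOK'
  · have hmin : min (t + 1) w.length = t + 1 := by omega
    rw [hmin] at hA hτ
    refine Or.inl ⟨hlt, ⟨x, ?_, e3, hW, ?_, ?_, ?_⟩, ⟨x, e0⟩⟩
    · rw [hst]
      exact e1
    · rw [htape']
      exact hA
    · intro i hi
      rw [htape']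
      exact hτ i hi
    · intro i hi
      rw [hseen, Set.mem_insert_iff, hS i hi, e2]
      omega
  · refine Or.inr ⟨?_, ?_, ?_, ?_⟩
    · rw [hst]
      exact hSOK'
    · rw [htape']
      exact hA
    · intro i hi
      rw [htape']
      exact hτ i hi
    · intro i hi
      rw [hseen, Set.mem_insert_iff, hS i hi]
      omega

theorem inv_step (hV : S_MV0) (hM : S_MVV) (hK : 0 < K) {strict : Prop} {w : List A}
    {c c' : Cfg (vM h rel p0 facc K W N hQ)}
    (hc : Inv w c) (hs : Step strict w.length c c') : Inv w c' := by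
  obtain ⟨t, ht, h1 | h2⟩ := hc
  · exact ⟨t, ht, Or.inr (step1 hV hK ht h1 hs)⟩
  · rcases step2 hM hK ht h2 hs with ⟨hlt, h3, -⟩ | h3
    · exact ⟨t + 1, hlt, Or.inl h3⟩
    · exact ⟨t, ht, Or.inr h3⟩

theorem inv_reach (hV : S_MV0) (hM : S_MVV) (hK : 0 < K) {strict : Prop} {w : List A}
    {c : Cfg (vM h rel p0 facc K W N hQ)}
    (hc : ReflTransGen (Step strict w.length) (init (vM h rel p0 facc K W N hQ) w) c) :
    Inv w c := by
  induction hc with
  | refl => exact inv_init w
  | tail _ hstep ih => exact inv_step hV hM hK ih hstep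

end una

/-- **SNV** -/
theorem t_SNV : S_MVV → S_MV0 → S_SNV := by
  intro hM hV A _ strict h rel p0 facc K W N hQ w hK c hc
  obtain ⟨t, ht, ⟨x, e1, -⟩ | ⟨hSOK, -⟩⟩ := inv_reach hV hM hK hc
  · rw [e1]
    exact ⟨fun h1 => absurd h1 (by simp), fun h1 => absurd h1 (by simp)⟩
  · refine ⟨fun h1 => ?_, fun h1 => ?_⟩
    · rw [h1] at hSOK
      exact hSOK.2.2.1 rfl
    · rw [h1] at hSOK
      intro h2
      have := hSOK.2.2.2 h2
      exact absurd this (by simp)

end Pool.Agent.L0h55.UZ
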